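import Mathlib
import Pool.Agent.Lib.MP_0f7a95_an.Shift

set_option autoImplicit false

namespace Pool.Agent.Results.MP_0f7a95_an.NotDense

/-- The set of convex-cyclic vectors of a bounded operator `T` on a normed space `X` over
`𝕜 = ℝ` or `ℂ`: the vectors `x` such that the convex hull of `{x, T x, T² x, …}` is dense. -/
def convexCyclicVectors {𝕜 X : Type} [RCLike 𝕜] [NormedAddCommGroup X] [NormedSpace 𝕜 X]
    [NormedSpace ℝ X] [IsScalarTower ℝ 𝕜 X] (T : X →L[𝕜] X) : Set X :=
  {x : X | Dense (convexHull ℝ (Set.range fun n : ℕ => (T ^ n) x))}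

/-- Over the reals and over the complex numbers there is a bounded operator on a Hilbert space
which has a convex-cyclic vector but whose set of convex-cyclic vectors is not dense. -/
theorem result (𝕜 : Type) [RCLike 𝕜] :
    ∃ (X : Type) (_ : NormedAddCommGroup X) (_ : InnerProductSpace 𝕜 X) (_ : CompleteSpace X)
      (_ : NormedSpace ℝ X) (_ : IsScalarTower ℝ 𝕜 X) (T : X →L[𝕜] X),
      (convexCyclicVectors T).Nonempty ∧ ¬ Dense (convexCyclicVectors T) :=
  ⟨lp (fun _ : ℕ => 𝕜) 2, inferInstance, inferInstance, inferInstance, inferInstance, inferInstance,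
    Pool.Agent.Lib.MP_0f7a95_an.main (default : HilbertBasis ℕ 𝕜 (lp (fun _ : ℕ => 𝕜) 2))⟩

end Pool.Agent.Results.MP_0f7a95_an.NotDense
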